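import Pool.Agent.Helper55.FR.GoalsB

/-!
# TCH: the number of the blocks which meet a set
-/

namespace Pool.Agent.Helper16.FR

open Finset Pool.Agent.Helper55.FR

/-- A change of truth value on `0, …, i` happens somewhere. -/
lemma exists_change (p : ℕ → Prop) (i : ℕ) (h : ¬ (p 0 ↔ p i)) :
    ∃ j < i, ¬ (p j ↔ p (j + 1)) := by
  induction i with
  | zero => exact absurd Iff.rfl h
  | succ i ih =>
    by_cases h1 : p 0 ↔ p i
    · exact ⟨i, by omega, fun h2 => h (h1.trans h2)⟩
    · obtain ⟨j, hj, h2⟩ := ih h1
      exact ⟨j, by omega, h2⟩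

/-- TCH. -/
theorem tch : TchStmt := by
  classical
  intro V _ _ n L blk hblk D
  let Bs : V → Finset V := fun s => univ.filter fun x => blk x = s
  set S := D.image blk with hS
  set A := S.filter fun s => Bs s ⊆ D with hA
  set A' := S.filter fun s => ¬ Bs s ⊆ D with hA'
  have hsplit : A.card + A'.card = S.card := card_filter_add_card_filter_not _
  have h1 : L * A.card ≤ D.card := by
    have h2 : A.biUnion Bs ⊆ D := by
      intro x hx
      rw [mem_biUnion] at hx
      obtain ⟨s, hs, hx⟩ := hx
      rw [hA, mem_filter] at hs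
      exact hs.2 hx
    refine le_trans ?_ (card_le_card h2)
    rw [card_biUnion]
    · calc L * A.card = ∑ _s ∈ A, L := by rw [sum_const, smul_eq_mul, mul_comm]
        _ ≤ ∑ s ∈ A, (Bs s).card := by
          apply sum_le_sum
          intro s hs
          rw [hA, mem_filter, hS, mem_image] at hs
          obtain ⟨⟨v, _, rfl⟩, _⟩ := hs
          exact hblk.lo v
    · intro s _ s' _ hne
      rw [Function.onFun, disjoint_left]
      intro x hx hx'
      simp only [Bs, mem_filter, mem_univ, true_and] at hx hx'
      exact hne (hx.symm.trans hx')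
  have h3 : A'.card ≤ (Xr n D).card := by
    have h4 : ∀ s ∈ A', ∃ x, x ∈ Xr n D ∧ blk x = s := by
      intro s hs
      rw [hA', mem_filter, hS, mem_image] at hs
      obtain ⟨⟨v, hv, rfl⟩, hns⟩ := hs
      rw [not_subset] at hns
      obtain ⟨w, hw, hwD⟩ := hns
      simp only [Bs, mem_filter, mem_univ, true_and] at hw
      have key : ∀ u : V, blk u = blk v → ¬ (blk v ∈ D ↔ u ∈ D) →
          ∃ x, x ∈ Xr n D ∧ blk x = blk v := by
        intro u hu hch
        obtain ⟨i, hi, hp⟩ := hblk.path u
        rw [hu] at hi hp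
        obtain ⟨j, hj, hj2⟩ := exists_change (fun k => (n ^ k) (blk v) ∈ D) i (by
          simpa [hi] using hch)
        refine ⟨(n ^ j) (blk v), ?_, hp j hj.le⟩
        unfold Xr
        rw [mem_filter]
        refine ⟨mem_univ _, ?_⟩
        intro h5
        apply hj2
        rw [pow_succ']
        exact h5
      by_cases hsD : blk v ∈ D
      · exact key w hw (fun h => hwD (h.1 hsD))
      · exact key v rfl (fun h => hsD (h.2 hv))
    choose! x hx using h4
    refine card_le_card_of_injOn x (fun s hs => (hx s hs).1) ?_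
    intro s hs s' hs' h
    rw [← (hx s hs).2, ← (hx s' hs').2, h]
  have h5 := Nat.mul_le_mul_left L h3
  calc L * S.card = L * A.card + L * A'.card := by rw [← hsplit, mul_add]
    _ ≤ D.card + L * (Xr n D).card := add_le_add h1 h5

end Pool.Agent.Helper16.FR
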